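import Pool.Agent.Helper23.MC.Goals4

set_option autoImplicit false

open Finset Filter Topology

open scoped Classical

namespace Pool.Agent.Helper60.MC

open Pool.Agent.Helper23.MC
open Pool.Agent.Helper88.PP (pr Rg om Sf SS uu vv ee LA VV QQ cost)

/-- the choice of the parameters -/
theorem params (c C c3 : ℝ) (k : ℕ) (hc : 0 < c) (hC : 1 ≤ C) (hc3 : 0 < c3) :
    ∃ K β : ℕ, 2 ≤ K ∧ 200 ≤ β ∧
      256 * ((K - 1 : ℕ) : ℝ) * C * Real.log (1 + β) ≤ c * β ∧
      2 * k * C * β ≤ c3 * c ^ 2 * K * Real.log (β / 130) ^ 2 := by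
  have hC0 : 0 < C := by linarith
  -- beta / log (1 + beta) is large
  have h1 : ∀ᶠ b : ℕ in atTop, 256 * C * Real.log (1 + b) ≤ c * b := by
    have hl : (fun x : ℝ => Real.log x) =o[atTop] (fun x : ℝ => x) := Real.isLittleO_log_id_atTop
    have h2 := hl.bound (show (0 : ℝ) < c / (512 * C) by positivity)
    have h3 : Tendsto (fun b : ℕ => (1 : ℝ) + b) atTop atTop :=
      tendsto_atTop_add_const_left _ _ tendsto_natCast_atTop_atTop
    have h4 := h3.eventually h2
    filter_upwards [h4, eventually_ge_atTop 1] with b hb hb1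
    have hb1' : (1 : ℝ) ≤ b := by exact_mod_cast hb1
    have h5 : Real.log (1 + b) ≤ c / (512 * C) * (1 + b) := by
      have := hb
      rw [Real.norm_eq_abs, Real.norm_eq_abs, abs_of_pos (show (0 : ℝ) < 1 + b by linarith)] at this
      exact le_trans (le_abs_self _) this
    calc 256 * C * Real.log (1 + b) ≤ 256 * C * (c / (512 * C) * (1 + b)) := by
          apply mul_le_mul_of_nonneg_left h5; positivity
      _ = c / 2 * (1 + b) := by field_simp; ring
      _ ≤ c * b := by nlinarith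
  have h6 : ∀ᶠ b : ℕ in atTop, 512 * k * C ^ 2 * Real.log (1 + b) * 1
      ≤ c3 * c ^ 3 * Real.log (b / 130) ^ 2 := by
    -- log (b/130) ≥ log b / 2, log (1 + b) ≤ 2 log b
    have h7 : Tendsto (fun b : ℕ => Real.log (b : ℝ)) atTop atTop :=
      Real.tendsto_log_atTop.comp tendsto_natCast_atTop_atTop
    have h8 := h7.eventually (eventually_ge_atTop (8 * (512 * k * C ^ 2) / (c3 * c ^ 3)))
    filter_upwards [h8, eventually_ge_atTop 16900] with b hb hb1
    have hb1' : (16900 : ℝ) ≤ b := by exact_mod_cast hb1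
    have hb0 : (0 : ℝ) < b := by linarith
    have h130 : Real.log 130 ≤ Real.log b / 2 := by
      have : Real.log (130 ^ 2) ≤ Real.log b := by
        apply Real.log_le_log (by norm_num); linarith
      rw [Real.log_pow] at this
      push_cast at this
      linarith
    have h9 : Real.log b / 2 ≤ Real.log (b / 130) := by
      rw [Real.log_div hb0.ne' (by norm_num)]; linarith
    have h10 : Real.log (1 + b) ≤ 2 * Real.log b := by
      have : Real.log (1 + b) ≤ Real.log (b ^ 2) := by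
        apply Real.log_le_log (by linarith); nlinarith
      rw [Real.log_pow] at this
      push_cast at this
      linarith
    have hlb : 0 ≤ Real.log b := Real.log_nonneg (by linarith)
    have h11 : 8 * (512 * k * C ^ 2) ≤ Real.log b * (c3 * c ^ 3) := by
      rw [div_le_iff₀ (by positivity)] at hb; exact hb
    have h12 : (Real.log b / 2) ^ 2 ≤ Real.log (b / 130) ^ 2 := by
      apply pow_le_pow_left₀ (by positivity) h9
    calc 512 * k * C ^ 2 * Real.log (1 + b) * 1 ≤ 512 * k * C ^ 2 * (2 * Real.log b) := by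
          rw [mul_one]
          apply mul_le_mul_of_nonneg_left h10; positivity
      _ = (8 * (512 * k * C ^ 2)) * (Real.log b / 4) := by ring
      _ ≤ (Real.log b * (c3 * c ^ 3)) * (Real.log b / 4) := by
          apply mul_le_mul_of_nonneg_right h11; positivity
      _ = c3 * c ^ 3 * (Real.log b / 2) ^ 2 := by ring
      _ ≤ c3 * c ^ 3 * Real.log (b / 130) ^ 2 := by
          apply mul_le_mul_of_nonneg_left h12; positivity
  obtain ⟨b, hb1, hb6, hb200⟩ := (h1.and (h6.and (eventually_ge_atTop 200))).exists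
  have hb0 : (0 : ℝ) < b := by
    have : (200 : ℝ) ≤ b := by exact_mod_cast hb200
    linarith
  have hlog : 0 < Real.log (1 + b) := Real.log_pos (by linarith)
  set t : ℝ := c * b / (256 * C * Real.log (1 + b)) with ht
  have ht1 : 1 ≤ t := by
    rw [ht, le_div_iff₀ (by positivity)]; linarith
  refine ⟨⌊t⌋₊ + 1, b, ?_, hb200, ?_, ?_⟩
  · have : 1 ≤ ⌊t⌋₊ := Nat.le_floor (by exact_mod_cast ht1)
    omega
  · have h13 : ((⌊t⌋₊ + 1 - 1 : ℕ) : ℝ) ≤ t := by
      rw [Nat.add_sub_cancel]; exact Nat.floor_le (by linarith)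
    calc 256 * ((⌊t⌋₊ + 1 - 1 : ℕ) : ℝ) * C * Real.log (1 + b)
        = ((⌊t⌋₊ + 1 - 1 : ℕ) : ℝ) * (256 * C * Real.log (1 + b)) := by ring
      _ ≤ t * (256 * C * Real.log (1 + b)) := by
          apply mul_le_mul_of_nonneg_right h13; positivity
      _ = c * b := by rw [ht]; field_simp
  · have h14 : t ≤ ((⌊t⌋₊ + 1 : ℕ) : ℝ) := by
      push_cast; exact (Nat.lt_floor_add_one t).le
    have h15 : 2 * k * C * b ≤ c3 * c ^ 2 * t * Real.log (b / 130) ^ 2 := by
      rw [ht]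
      have : c3 * c ^ 2 * (c * b / (256 * C * Real.log (1 + b))) * Real.log (b / 130) ^ 2
          = (c3 * c ^ 3 * Real.log (b / 130) ^ 2) * b / (256 * C * Real.log (1 + b)) := by ring
      rw [this, le_div_iff₀ (by positivity)]
      calc 2 * k * C * b * (256 * C * Real.log (1 + b))
          = (512 * k * C ^ 2 * Real.log (1 + b) * 1) * b := by ring
        _ ≤ (c3 * c ^ 3 * Real.log (b / 130) ^ 2) * b := by
            apply mul_le_mul_of_nonneg_right hb6 hb0.le
    refine h15.trans ?_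
    apply mul_le_mul_of_nonneg_right _ (by positivity)
    apply mul_le_mul_of_nonneg_left h14 (by positivity)

theorem mt : StmtNU → StmtNL → StmtIJ → StmtMT := by
  intro hNU hNL hIJ c3 k hc3
  obtain ⟨c, C, hc, hC, hIJ⟩ := hIJ
  obtain ⟨K, β, hK, hβ, hA, hB⟩ := params c C c3 k hc hC hc3
  refine ⟨K, β, C, by omega, hC, max (64 * K) β, ?_⟩
  intro E z hE hz H hH
  have hE1 : 64 * K ≤ E := le_trans (le_max_left _ _) hE
  have hE2 : β ≤ E := le_trans (le_max_right _ _) hE
  have hE64 : 64 ≤ E := by omega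
  have hz2 : 2 ≤ z := by omega
  have hKE : K ≤ E / 64 := by omega
  have hKE' : K ≤ E / 32 := by omega
  obtain ⟨h1, h2, h3, h4, h5⟩ := hIJ E z β hE64 hz2 hβ hE2
  set I1 : ℝ := ∑ s ∈ SS z (z ^ (E / 64)), 1 / ((Nat.totient s : ℝ) * (E + β * ee z s)) with hI1
  set I2 : ℝ := ∑ s ∈ SS z (z ^ (E / 64)), 1 / ((Nat.totient s : ℝ) * (E + β * ee z s) ^ 2) with hI2
  set J : ℝ := ∑ s ∈ SS z (z ^ (E / 64)),
    (ee z s : ℝ) / ((Nat.totient s : ℝ) * (E + β * ee z s) ^ 2) with hJ
  have hC0 : 0 < C := by linarith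
  have hβr : (200 : ℝ) ≤ β := by exact_mod_cast hβ
  have hβ0 : (0 : ℝ) < β := by linarith
  have hEr : (64 : ℝ) ≤ E := by exact_mod_cast hE64
  have hE0 : (0 : ℝ) < E := by linarith
  have hlogβ : Real.log (1 + β) ≤ β := by
    have := Real.log_le_sub_one_of_pos (show (0 : ℝ) < 1 + β by linarith)
    linarith
  have hI1C : I1 ≤ C := by
    refine h2.trans ?_
    rw [div_mul_eq_mul_div, div_le_iff₀ hβ0]
    exact mul_le_mul_of_nonneg_left hlogβ hC0.le
  have hI2pos : 0 < I2 := lt_of_lt_of_le (by positivity) h4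
  obtain ⟨u1, u2, u3⟩ := hNU E z β hE64 hz2 hE2 H (by rw [hH]; exact hKE')
  rw [hH] at u2 u3
  have hL : ∀ j ∈ H, Ad C E z (H.erase j) (Tj H j (TH E z H)) (kj H j (TH E z H) (kH E z β H)) ∧
      I1 ^ 2 * (I2 ^ (K - 1) - (K - 1 : ℕ) / ((E / 64 : ℕ) : ℝ) * J * I2 ^ (K - 2))
        ≤ NH (H.erase j) (Tj H j (TH E z H)) (kj H j (TH E z H) (kH E z β H)) := by
    intro j hj
    have := hNL E z β hE64 hz2 hE2 H (by omega) (by omega) j hj I1 I2 J C hI1 hI2 hJ hI1C hC
    rw [hH] at this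
    exact this
  refine ⟨u1, fun j hj => (hL j hj).1, u2, ?_⟩
  -- the Markov loss
  have hfl : (E : ℝ) / 128 ≤ ((E / 64 : ℕ) : ℝ) := by
    have : E ≤ 128 * (E / 64) := by omega
    have h' : (E : ℝ) ≤ 128 * ((E / 64 : ℕ) : ℝ) := by exact_mod_cast this
    linarith
  have hfl0 : (0 : ℝ) < ((E / 64 : ℕ) : ℝ) := by
    have : 1 ≤ E / 64 := by omega
    exact_mod_cast this
  have hloss : ((K - 1 : ℕ) : ℝ) / ((E / 64 : ℕ) : ℝ) * J ≤ I2 / 2 := by
    have hJ1 : ((K - 1 : ℕ) : ℝ) * J ≤ ((K - 1 : ℕ) : ℝ) * (C / β ^ 2 * Real.log (1 + β)) :=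
      mul_le_mul_of_nonneg_left h5 (by positivity)
    have hJ2 : ((K - 1 : ℕ) : ℝ) * (C / β ^ 2 * Real.log (1 + β)) ≤ c / (256 * β) := by
      have e : ((K - 1 : ℕ) : ℝ) * (C / β ^ 2 * Real.log (1 + β))
          = (256 * ((K - 1 : ℕ) : ℝ) * C * Real.log (1 + β)) / (256 * β ^ 2) := by
        field_simp
      rw [e, div_le_div_iff₀ (by positivity) (by positivity)]
      calc (256 * ((K - 1 : ℕ) : ℝ) * C * Real.log (1 + β)) * (256 * β)
          ≤ (c * β) * (256 * β) := mul_le_mul_of_nonneg_right hA (by positivity)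
        _ = c * (256 * β ^ 2) := by ring
    have hJ3 : c / (256 * β) ≤ ((E / 64 : ℕ) : ℝ) * (I2 / 2) := by
      have h6 : (E : ℝ) / 128 * (c / (β * E) / 2) ≤ ((E / 64 : ℕ) : ℝ) * (I2 / 2) := by
        apply mul_le_mul hfl _ (by positivity) hfl0.le
        linarith
      have e : (E : ℝ) / 128 * (c / (β * E) / 2) = c / (256 * β) := by field_simp; ring
      linarith
    rw [div_mul_eq_mul_div, div_le_iff₀ hfl0]
    linarith [hJ1, hJ2, hJ3, mul_comm (I2 / 2) ((E / 64 : ℕ) : ℝ)]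
  have hpow : I2 ^ (K - 1) = I2 * I2 ^ (K - 2) := by
    rw [← pow_succ']; congr 1; omega
  have hlow : ∀ j ∈ H, I1 ^ 2 * (I2 ^ (K - 1) / 2)
      ≤ NH (H.erase j) (Tj H j (TH E z H)) (kj H j (TH E z H) (kH E z β H)) := by
    intro j hj
    refine le_trans ?_ (hL j hj).2
    apply mul_le_mul_of_nonneg_left _ (sq_nonneg _)
    have h7 : ((K - 1 : ℕ) : ℝ) / ((E / 64 : ℕ) : ℝ) * J * I2 ^ (K - 2) ≤ I2 / 2 * I2 ^ (K - 2) :=
      mul_le_mul_of_nonneg_right hloss (by positivity)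
    rw [hpow] at *
    linarith
  have hsum : (K : ℝ) * (I1 ^ 2 * (I2 ^ (K - 1) / 2))
      ≤ ∑ j ∈ H, NH (H.erase j) (Tj H j (TH E z H)) (kj H j (TH E z H) (kH E z β H)) := by
    have := Finset.card_nsmul_le_sum H _ _ hlow
    rw [nsmul_eq_mul, hH] at this
    exact this
  have hlogpos : 0 ≤ Real.log (β / 130) := Real.log_nonneg (by rw [le_div_iff₀ (by norm_num)]; linarith)
  have hI1sq : (c / β * Real.log (β / 130)) ^ 2 ≤ I1 ^ 2 :=
    pow_le_pow_left₀ (by positivity) h1 2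
  have hmain : (k : ℝ) * I2 ≤ c3 / E * ((K : ℝ) * (I1 ^ 2 / 2)) := by
    calc (k : ℝ) * I2 ≤ k * (C / (β * E)) := mul_le_mul_of_nonneg_left h3 (by positivity)
      _ = (2 * k * C * β) / (2 * β ^ 2 * E) := by field_simp
      _ ≤ (c3 * c ^ 2 * K * Real.log (β / 130) ^ 2) / (2 * β ^ 2 * E) :=
          div_le_div_of_nonneg_right hB (by positivity)
      _ = c3 / E * ((K : ℝ) * ((c / β * Real.log (β / 130)) ^ 2 / 2)) := by
          field_simp
      _ ≤ c3 / E * ((K : ℝ) * (I1 ^ 2 / 2)) := by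
          apply mul_le_mul_of_nonneg_left _ (by positivity)
          apply mul_le_mul_of_nonneg_left _ (by positivity)
          linarith
  have hpow2 : I2 ^ K = I2 * I2 ^ (K - 1) := by
    rw [← pow_succ']; congr 1; omega
  calc (k : ℝ) * NH H (TH E z H) (kH E z β H) ≤ k * I2 ^ K :=
        mul_le_mul_of_nonneg_left u3 (by positivity)
    _ = (k * I2) * I2 ^ (K - 1) := by rw [hpow2]; ring
    _ ≤ (c3 / E * ((K : ℝ) * (I1 ^ 2 / 2))) * I2 ^ (K - 1) :=
        mul_le_mul_of_nonneg_right hmain (by positivity)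
    _ = c3 / E * ((K : ℝ) * (I1 ^ 2 * (I2 ^ (K - 1) / 2))) := by ring
    _ ≤ c3 / E * ∑ j ∈ H, NH (H.erase j) (Tj H j (TH E z H)) (kj H j (TH E z H) (kH E z β H)) :=
        mul_le_mul_of_nonneg_left hsum (by positivity)

end Pool.Agent.Helper60.MC
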